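import Mathlib
import Pool.Agent.H25.Rc3

namespace Pool.Agent.Results.MP_7ad46c_co.Large

open Finset

/-- Every element of `ZMod n` is a sum of three distinct elements of `A`. -/
def Spans {n : ℕ} (A : Finset (ZMod n)) : Prop :=
  ∀ t : ZMod n, ∃ R ⊆ A, R.card = 3 ∧ ∑ y ∈ R, y = t

theorem result (p : ℕ) (hp : p.Prime) (h3 : p % 3 = 2) : ∃ n0 : ℕ, ∀ n : ℕ, n0 ≤ n → Odd n →
    p ∣ n → (∀ r : ℕ, r.Prime → r ∣ n → r % 3 = 2 → p ≤ r) →
    IsLeast {m : ℕ | ∀ A : Finset (ZMod n), A.card = m → Spans A} ((p + 1) / 3 * (n / p) + 1) := by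
  obtain ⟨c, hc⟩ : ∃ c, p + 1 = 3 * c := ⟨(p + 1) / 3, by omega⟩
  obtain ⟨n0, h⟩ := H25.Harb.crit p c hc
  refine ⟨p * (n0 + 1), ?_⟩
  rintro n hn ho ⟨s, rfl⟩ hr
  have hp2 := hp.two_le
  have hs : n0 + 1 ≤ s := Nat.le_of_mul_le_mul_left hn hp.pos
  have : NeZero (p * s) := ⟨ho.pos.ne'⟩
  have : NeZero p := ⟨hp.ne_zero⟩
  rw [show (p + 1) / 3 = c by omega, Nat.mul_div_cancel_left _ hp.pos]
  constructor
  · intro A hA
    refine h (ZMod (p * s)) (fun x y e => ?_) s (by omega) (ZMod.card _) hr A hA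
    have : -(x - y) = x - y := by linear_combination -e
    rcases (ZMod.neg_eq_self_iff _).1 this with h1 | h1
    · exact sub_eq_zero.1 h1
    · obtain ⟨o, ho⟩ := ho; omega
  · intro m hm
    by_contra hlt
    let ψ := ZMod.castHom (dvd_mul_right p s) (ZMod p)
    have hP : c * s ≤ (univ.filter fun x => (ψ x).val < c).card := by
      have hv : ∀ i < c, ∀ j, (ψ ((i + p * j : ℕ) : ZMod (p * s))).val = i := by
        intro i hi j
        rw [map_natCast, ZMod.val_natCast, Nat.add_mul_mod_self_left, Nat.mod_eq_of_lt (by omega)]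
      have h1 : (range c ×ˢ range s).card ≤ (univ.filter fun x => (ψ x).val < c).card := by
        apply card_le_card_of_injOn (fun q => ((q.1 + p * q.2 : ℕ) : ZMod (p * s)))
        · intro q hq
          obtain ⟨p1, -⟩ := mem_product.1 (mem_coe.1 hq)
          refine mem_coe.2 (mem_filter.2 ⟨mem_univ _, ?_⟩)
          rw [hv _ (mem_range.1 p1)]; exact mem_range.1 p1
        · intro q hq r hr e
          obtain ⟨p1, p2⟩ := mem_product.1 (mem_coe.1 hq)
          obtain ⟨r1, r2⟩ := mem_product.1 (mem_coe.1 hr)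
          rw [mem_range] at p1 p2 r1 r2
          have e1 : q.1 = r.1 := by
            rw [← hv _ p1 q.2, ← hv _ r1 r.2]; exact congrArg (fun x => (ψ x).val) e
          have b1 := Nat.mul_le_mul_left p (show q.2 + 1 ≤ s from p2)
          have b2 := Nat.mul_le_mul_left p (show r.2 + 1 ≤ s from r2)
          rw [Nat.mul_succ] at b1 b2
          have e2 := congrArg ZMod.val e
          simp only at e2
          rw [ZMod.val_cast_of_lt (by omega), ZMod.val_cast_of_lt (by omega)] at e2
          exact Prod.ext e1 (Nat.eq_of_mul_eq_mul_left hp.pos (by omega))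
      rwa [card_product, card_range, card_range] at h1
    obtain ⟨A, hA, hAc⟩ := exists_subset_card_eq (s := univ.filter fun x => (ψ x).val < c)
      (n := m) (by omega)
    obtain ⟨R, hR, h1, h2⟩ := hm A hAc ((p - 1 : ℕ) : ZMod (p * s))
    have h4 : ∑ x ∈ R, (ψ x).val ≤ 3 * (c - 1) :=
      le_trans (sum_le_card_nsmul _ _ (c - 1) fun x hx => by
        have := (mem_filter.1 (hA (hR hx))).2; omega) (by rw [h1, smul_eq_mul])
    have h5 : ((∑ x ∈ R, (ψ x).val : ℕ) : ZMod p) = ((p - 1 : ℕ) : ZMod p) := by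
      have := congrArg ψ h2
      rw [map_sum, map_natCast] at this
      rw [← this, Nat.cast_sum]
      simp only [ZMod.natCast_zmod_val]
    have h6 := congrArg ZMod.val h5
    rw [ZMod.val_cast_of_lt (by omega), ZMod.val_cast_of_lt (by omega)] at h6
    omega

end Pool.Agent.Results.MP_7ad46c_co.Large
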